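import Pool.Agent.U619.NB.Zero

/-! # Exponential propagation bound, and all moments -/

set_option autoImplicit false

open MeasureTheory Filter Topology
open scoped BigOperators ENNReal NNReal InnerProductSpace ComplexConjugate

namespace Pool.Agent.U619.NB

open Pool.Agent.H5R2.NB Pool.Agent.H5R2.NB.MOM Pool.Agent.R988.NQ

variable {d : ℕ}

/-- truncated exponential weight -/
noncomputable def ww (j : Fin d) (R : ℕ) (x : Site d) : ℝ := Real.exp (min (R : ℝ) |(x j : ℝ)|)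

theorem ww_pos (j : Fin d) (R : ℕ) (x : Site d) : 0 < ww j R x := Real.exp_pos _

theorem ww_abs (j : Fin d) (R : ℕ) (x : Site d) : |ww j R x| ≤ Real.exp R := by
  rw [abs_of_pos (ww_pos j R x)]
  exact Real.exp_le_exp.2 (min_le_left _ _)

theorem min_lip (R a b : ℝ) (h : |a - b| ≤ 1) : |(min R (|a|) - min R (|b|))| ≤ 1 := by
  have h1 := abs_min_sub_min_le_max R (|a|) R (|b|)
  refine h1.trans ?_
  rw [sub_self, abs_zero]
  exact max_le zero_le_one ((abs_abs_sub_abs_le a b).trans h)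

theorem ratio_le (j : Fin d) (R : ℕ) (x y : Site d) (h : |(x j : ℝ) - (y j : ℝ)| ≤ 1) :
    |(ww j R y - ww j R x) / ww j R y| ≤ 2 := by
  have hy := ww_pos j R y
  have e : (ww j R y - ww j R x) / ww j R y =
      1 - Real.exp (min (R : ℝ) |(x j : ℝ)| - min (R : ℝ) |(y j : ℝ)|) := by
    rw [Real.exp_sub, sub_div, div_self hy.ne']
    rfl
  rw [e]
  have h1 := min_lip (R : ℝ) (x j) (y j) h
  rw [abs_le] at h1
  have h2 : Real.exp (min (R : ℝ) |(x j : ℝ)| - min (R : ℝ) |(y j : ℝ)|) ≤ Real.exp 1 :=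
    Real.exp_le_exp.2 h1.2
  have h3 := Real.exp_pos (min (R : ℝ) |(x j : ℝ)| - min (R : ℝ) |(y j : ℝ)|)
  have h4 := Real.exp_one_lt_d9
  rw [abs_le]
  constructor <;> linarith

/-- `(w(x+e_j) - w(x)) / w(x+e_j)` -/
noncomputable def aW (j : Fin d) (R : ℕ) (x : Site d) : ℝ :=
  (ww j R (x + Pi.single j 1) - ww j R x) / ww j R (x + Pi.single j 1)

/-- `(w(x-e_j) - w(x)) / w(x-e_j)` -/
noncomputable def bW (j : Fin d) (R : ℕ) (x : Site d) : ℝ :=
  (ww j R (x - Pi.single j 1) - ww j R x) / ww j R (x - Pi.single j 1)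

theorem aW_abs (j : Fin d) (R : ℕ) (x : Site d) : |aW j R x| ≤ 2 := by
  refine ratio_le j R x _ ?_
  have e : (((x + Pi.single j 1 : Site d) j : ℤ) : ℝ) = (x j : ℝ) + 1 := by simp
  rw [e]
  have : (x j : ℝ) - ((x j : ℝ) + 1) = -1 := by ring
  rw [this]
  norm_num

theorem bW_abs (j : Fin d) (R : ℕ) (x : Site d) : |bW j R x| ≤ 2 := by
  refine ratio_le j R x _ ?_
  have e : (((x - Pi.single j 1 : Site d) j : ℤ) : ℝ) = (x j : ℝ) - 1 := by simp
  rw [e]
  have : (x j : ℝ) - ((x j : ℝ) - 1) = 1 := by ring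
  rw [this]
  norm_num

/-- the commutator operator -/
noncomputable def hW (c : ℝ) (j : Fin d) (R : ℕ) (Sp Sm : L2 (Site d) →L[ℂ] L2 (Site d)) :
    L2 (Site d) →L[ℂ] L2 (Site d) :=
  (Complex.I * c) • ((mulop (aW j R) 2 (aW_abs j R)).comp Sp +
    (mulop (bW j R) 2 (bW_abs j R)).comp Sm)

theorem hW_apply (c : ℝ) (j : Fin d) (R : ℕ) (Sp Sm : L2 (Site d) →L[ℂ] L2 (Site d))
    (hp : IsShift (Pi.single j 1) Sp) (hm : IsShift (-Pi.single j 1) Sm) (ψ : L2 (Site d))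
    (x : Site d) : (hW c j R Sp Sm ψ) x = Complex.I * c *
      (aW j R x * ψ (x + Pi.single j 1) + bW j R x * ψ (x - Pi.single j 1)) := by
  show (Complex.I * c) * ((aW j R x : ℂ) * (Sp ψ) x + (bW j R x : ℂ) * (Sm ψ) x) = _
  rw [hp ψ x, hm ψ x, sub_eq_add_neg x]

theorem hW_norm_le (c : ℝ) (j : Fin d) (R : ℕ) (Sp Sm : L2 (Site d) →L[ℂ] L2 (Site d))
    (ψ : L2 (Site d)) :
    ‖hW c j R Sp Sm ψ‖ ≤ |c| * (2 * (‖Sp‖ + ‖Sm‖)) * ‖ψ‖ := by
  have e : hW c j R Sp Sm ψ = (Complex.I * c) • (mulop (aW j R) 2 (aW_abs j R) (Sp ψ) +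
    mulop (bW j R) 2 (bW_abs j R) (Sm ψ)) := rfl
  rw [e, norm_smul, norm_mul, Complex.norm_I, one_mul, Complex.norm_real, Real.norm_eq_abs,
    mul_assoc]
  gcongr
  calc ‖mulop (aW j R) 2 (aW_abs j R) (Sp ψ) + mulop (bW j R) 2 (bW_abs j R) (Sm ψ)‖
      ≤ ‖mulop (aW j R) 2 (aW_abs j R) (Sp ψ)‖ + ‖mulop (bW j R) 2 (bW_abs j R) (Sm ψ)‖ :=
        norm_add_le _ _
    _ ≤ 2 * ‖Sp ψ‖ + 2 * ‖Sm ψ‖ := add_le_add (mulop_norm_le _ _ _ _) (mulop_norm_le _ _ _ _)
    _ ≤ 2 * (‖Sp‖ * ‖ψ‖) + 2 * (‖Sm‖ * ‖ψ‖) := by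
        gcongr
        · exact Sp.le_opNorm ψ
        · exact Sm.le_opNorm ψ
    _ = (2 * (‖Sp‖ + ‖Sm‖)) * ‖ψ‖ := by ring

theorem hop_ww (c : ℝ) (j : Fin d) (R : ℕ) (w : Site d → ℂ) (x : Site d) :
    hopf c (fun y => (ww j R y : ℂ) * w y) x = (ww j R x : ℂ) * hopf c w x +
      c * (aW j R x * ((ww j R (x + Pi.single j 1) : ℂ) * w (x + Pi.single j 1)) +
        bW j R x * ((ww j R (x - Pi.single j 1) : ℂ) * w (x - Pi.single j 1))) := by
  have ha : (aW j R x : ℂ) * (ww j R (x + Pi.single j 1) : ℂ) =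
      ww j R (x + Pi.single j 1) - ww j R x := by
    have : aW j R x * ww j R (x + Pi.single j 1) = ww j R (x + Pi.single j 1) - ww j R x := by
      unfold aW
      rw [div_mul_cancel₀ _ (ww_pos j R _).ne']
    exact_mod_cast this
  have hb : (bW j R x : ℂ) * (ww j R (x - Pi.single j 1) : ℂ) =
      ww j R (x - Pi.single j 1) - ww j R x := by
    have : bW j R x * ww j R (x - Pi.single j 1) = ww j R (x - Pi.single j 1) - ww j R x := by
      unfold bW
      rw [div_mul_cancel₀ _ (ww_pos j R _).ne']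
    exact_mod_cast this
  rw [← mul_assoc, ← mul_assoc, ha, hb]
  have key : ∑ i : Fin d, (((ww j R (x + Pi.single i 1) : ℂ) * w (x + Pi.single i 1) +
      (ww j R (x - Pi.single i 1) : ℂ) * w (x - Pi.single i 1)) -
      (ww j R x : ℂ) * (w (x + Pi.single i 1) + w (x - Pi.single i 1))) =
      (ww j R (x + Pi.single j 1) - ww j R x) * w (x + Pi.single j 1) +
        (ww j R (x - Pi.single j 1) - ww j R x) * w (x - Pi.single j 1) := by
    rw [Finset.sum_eq_single j]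
    · ring
    · intro i _ hij
      have e1 : (x + Pi.single i 1 : Site d) j = x j := by
        rw [Pi.add_apply, Pi.single_eq_of_ne hij.symm, add_zero]
      have e2 : (x - Pi.single i 1 : Site d) j = x j := by
        rw [Pi.sub_apply, Pi.single_eq_of_ne hij.symm, sub_zero]
      have h1 : ww j R (x + Pi.single i 1) = ww j R x := by
        unfold ww
        rw [e1]
      have h2 : ww j R (x - Pi.single i 1) = ww j R x := by
        unfold ww
        rw [e2]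
      rw [h1, h2]
      ring
    · simp
  rw [← key, Finset.sum_sub_distrib, ← Finset.mul_sum]
  unfold hopf
  ring

theorem isSolW (c : ℝ) (V : Site d → ℝ) (W : UG (L2 (Site d))) (hWg : IsGrp c V W) (j : Fin d)
    (R : ℕ) (Sp Sm : L2 (Site d) →L[ℂ] L2 (Site d))
    (hp : IsShift (Pi.single j 1) Sp) (hm : IsShift (-Pi.single j 1) Sm) (ψ : L2 (Site d)) :
    IsSol c V (fun t => mulop (ww j R) (Real.exp R) (ww_abs j R) (W.U t ψ))
      (fun t => hW c j R Sp Sm (mulop (ww j R) (Real.exp R) (ww_abs j R) (W.U t ψ))) := by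
  refine ⟨fun T => ⟨Real.exp R * ‖ψ‖, fun t _ => ?_⟩, fun t x => ?_⟩
  · have h := mulop_norm_le (ww j R) (Real.exp R) (ww_abs j R) (W.U t ψ)
    rwa [W.norm'] at h
  · have h := ((hWg ψ).2 t x).const_mul (ww j R x : ℂ)
    have e : (fun s => (mulop (ww j R) (Real.exp R) (ww_abs j R) (W.U s ψ)) x) =
        fun s => (ww j R x : ℂ) * (W.U s ψ) x := by
      funext s
      rfl
    rw [e]
    refine h.congr_deriv ?_
    have e2 : (fun y => (mulop (ww j R) (Real.exp R) (ww_abs j R) (W.U t ψ)) y) =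
        fun y => (ww j R y : ℂ) * (W.U t ψ) y := by
      funext y
      rfl
    have e3 : ((0 : L2 (Site d)) x) = 0 := rfl
    rw [e2, hop_ww, hW_apply c j R Sp Sm hp hm, mulop_apply, mulop_apply, mulop_apply, e3]
    ring

/-- Gronwall's inequality in integral form -/
theorem gron (g : ℝ → ℝ) (hg : Continuous g) (A κ : ℝ) (hκ : 0 ≤ κ)
    (h : ∀ t, 0 ≤ t → g t ≤ A + κ * ∫ s in (0 : ℝ)..t, g s) (t : ℝ) (ht : 0 ≤ t) :
    g t ≤ A * Real.exp (κ * t) := by
  obtain ⟨F, hF⟩ : ∃ F : ℝ → ℝ, F = fun t => A + κ * ∫ s in (0 : ℝ)..t, g s := ⟨_, rfl⟩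
  have hFd : ∀ t, HasDerivAt F (κ * g t) t := by
    intro t
    rw [hF]
    have h1 := intervalIntegral.integral_hasDerivAt_right (hg.intervalIntegrable 0 t)
      hg.stronglyMeasurable.stronglyMeasurableAtFilter hg.continuousAt
    exact (h1.const_mul κ).const_add A
  have hGd : ∀ t, HasDerivAt (fun t => F t * Real.exp (-κ * t))
      (κ * g t * Real.exp (-κ * t) + F t * (Real.exp (-κ * t) * (-κ))) t := by
    intro t
    have h2 : HasDerivAt (fun t : ℝ => Real.exp (-κ * t)) (Real.exp (-κ * t) * (-κ)) t := by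
      have := ((hasDerivAt_id t).const_mul (-κ)).exp
      simpa using this
    exact (hFd t).mul h2
  have hanti : AntitoneOn (fun t => F t * Real.exp (-κ * t)) (Set.Ici 0) := by
    refine antitoneOn_of_deriv_nonpos (convex_Ici 0)
      (fun t _ => (hGd t).continuousAt.continuousWithinAt)
      (fun t _ => (hGd t).differentiableAt.differentiableWithinAt) fun t ht => ?_
    rw [interior_Ici] at ht
    rw [(hGd t).deriv]
    have h1 := h t (le_of_lt ht)
    have h3 : g t ≤ F t := by rw [hF]; exact h1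
    have h4 := Real.exp_pos (-κ * t)
    have e : κ * g t * Real.exp (-κ * t) + F t * (Real.exp (-κ * t) * (-κ)) =
        -(κ * (F t - g t) * Real.exp (-κ * t)) := by ring
    rw [e, neg_nonpos]
    have : 0 ≤ F t - g t := by linarith
    positivity
  have h1 := hanti (Set.mem_Ici.2 le_rfl) (Set.mem_Ici.2 ht) ht
  simp only [mul_zero, Real.exp_zero, mul_one] at h1
  have h2 : F 0 = A := by
    rw [hF]
    simp
  rw [h2] at h1
  have h3 : g t ≤ F t := by rw [hF]; exact h t ht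
  refine h3.trans ?_
  have h4 := mul_le_mul_of_nonneg_right h1 (Real.exp_pos (κ * t)).le
  have e : F t * Real.exp (-κ * t) * Real.exp (κ * t) = F t := by
    rw [mul_assoc, ← Real.exp_add]
    have : -κ * t + κ * t = 0 := by ring
    rw [this, Real.exp_zero, mul_one]
  rwa [e] at h4

/-- the exponential moment in direction `j` -/
noncomputable def EE (j : Fin d) (u : L2 (Site d)) : ℝ≥0∞ :=
  ∑' x : Site d, ENNReal.ofReal (Real.exp (|(x j : ℝ)|) ^ 2) * ‖u x‖ₑ ^ 2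

theorem mulop_enorm' (m : Site d → ℝ) (M : ℝ) (hM : ∀ x, |m x| ≤ M) (ψ : L2 (Site d)) :
    ‖mulop m M hM ψ‖ₑ ^ 2 = ∑' x : Site d, ENNReal.ofReal ((m x) ^ 2) * ‖ψ x‖ₑ ^ 2 := by
  rw [← enorm_sq]
  refine tsum_congr fun x => ?_
  rw [mulop_apply, enorm_mul, mul_pow]
  congr 1
  rw [← ofReal_norm, Complex.norm_real, Real.norm_eq_abs, ← ENNReal.ofReal_pow (abs_nonneg _),
    sq_abs]

/-- the propagation bound -/
theorem exp_bound1 (c : ℝ) (j : Fin d) : ∃ κ : ℝ, 0 ≤ κ ∧ ∀ (V : Site d → ℝ)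
    (W : UG (L2 (Site d))), IsGrp c V W → ∀ (u : L2 (Site d)) (t : ℝ), 0 ≤ t →
      EE j (W.U t u) ≤ ENNReal.ofReal (Real.exp (κ * t) ^ 2) * EE j u := by
  obtain ⟨Sp, hp⟩ := (t_OPS d).1 (Pi.single j 1)
  obtain ⟨Sm, hm⟩ := (t_OPS d).1 (-Pi.single j 1)
  refine ⟨|c| * (2 * (‖Sp‖ + ‖Sm‖)), by positivity, ?_⟩
  obtain ⟨κ, hκ⟩ : ∃ κ : ℝ, κ = |c| * (2 * (‖Sp‖ + ‖Sm‖)) := ⟨_, rfl⟩
  have hκ0 : 0 ≤ κ := by rw [hκ]; positivity
  rw [← hκ]
  intro V W hWg u t ht
  have hcw : Continuous fun s => W.U s u := W.cont' _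
  have key : ∀ R : ℕ, ‖mulop (ww j R) (Real.exp R) (ww_abs j R) (W.U t u)‖ ≤
      ‖mulop (ww j R) (Real.exp R) (ww_abs j R) u‖ * Real.exp (κ * t) := by
    intro R
    obtain ⟨f, hf⟩ : ∃ f : ℝ → L2 (Site d), f = fun t =>
      mulop (ww j R) (Real.exp R) (ww_abs j R) (W.U t u) := ⟨_, rfl⟩
    have hfc : Continuous f := by
      rw [hf]
      exact (mulop (ww j R) (Real.exp R) (ww_abs j R)).continuous.comp hcw
    have hhc : Continuous fun s => hW c j R Sp Sm (f s) :=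
      (hW c j R Sp Sm).continuous.comp hfc
    have hsol := isSolW c V W hWg j R Sp Sm hp hm u
    have hgr := gron (fun t => ‖f t‖) hfc.norm ‖f 0‖ κ hκ0 (by
      intro t ht
      have hU := ALL.a_UN d c V W hWg f (fun s => hW c j R Sp Sm (f s)) hhc
        (by rw [hf]; exact hsol) t
      show ‖f t‖ ≤ ‖f 0‖ + κ * ∫ s in (0 : ℝ)..t, ‖f s‖
      rw [hU]
      refine (norm_add_le _ _).trans ?_
      rw [W.norm']
      have hb : ‖∫ s in (0 : ℝ)..t, W.U (t - s) (hW c j R Sp Sm (f s))‖ ≤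
          ∫ s in (0 : ℝ)..t, κ * ‖f s‖ := by
        refine intervalIntegral.norm_integral_le_of_norm_le ht ?_
          ((hfc.norm.const_mul κ).intervalIntegrable 0 t)
        refine ae_of_all _ fun s _ => ?_
        rw [W.norm', hκ]
        exact hW_norm_le c j R Sp Sm (f s)
      rw [intervalIntegral.integral_const_mul] at hb
      linarith) t ht
    have e0 : f 0 = mulop (ww j R) (Real.exp R) (ww_abs j R) u := by
      rw [hf]
      simp only
      rw [W.zero']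
    rw [← e0]
    have e1 : f t = mulop (ww j R) (Real.exp R) (ww_abs j R) (W.U t u) := by rw [hf]
    rw [← e1]
    exact hgr
  have key2 : ∀ R : ℕ, ∑' x : Site d, ENNReal.ofReal ((ww j R x) ^ 2) * ‖(W.U t u) x‖ₑ ^ 2 ≤
      ENNReal.ofReal (Real.exp (κ * t) ^ 2) * EE j u := by
    intro R
    rw [← mulop_enorm' (ww j R) (Real.exp R) (ww_abs j R) (W.U t u)]
    have h1 : ‖mulop (ww j R) (Real.exp R) (ww_abs j R) (W.U t u)‖ₑ ^ 2 ≤
        ENNReal.ofReal (Real.exp (κ * t) ^ 2) *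
          ‖mulop (ww j R) (Real.exp R) (ww_abs j R) u‖ₑ ^ 2 := by
      rw [← ofReal_norm, ← ofReal_norm, ← ENNReal.ofReal_pow (norm_nonneg _),
        ← ENNReal.ofReal_pow (norm_nonneg _), ← ENNReal.ofReal_mul (by positivity)]
      refine ENNReal.ofReal_le_ofReal ?_
      calc ‖mulop (ww j R) (Real.exp R) (ww_abs j R) (W.U t u)‖ ^ 2
          ≤ (‖mulop (ww j R) (Real.exp R) (ww_abs j R) u‖ * Real.exp (κ * t)) ^ 2 :=
            pow_le_pow_left₀ (norm_nonneg _) (key R) 2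
        _ = _ := by ring
    refine h1.trans ?_
    gcongr
    rw [mulop_enorm']
    unfold EE
    refine ENNReal.tsum_le_tsum fun x => ?_
    refine mul_le_mul' (ENNReal.ofReal_le_ofReal ?_) le_rfl
    exact pow_le_pow_left₀ (ww_pos j R x).le (Real.exp_le_exp.2 (min_le_right _ _)) 2
  unfold EE
  rw [ENNReal.tsum_eq_iSup_sum]
  refine iSup_le fun F => ?_
  obtain ⟨R, hR⟩ : ∃ R : ℕ, ∀ x ∈ F, |(x j : ℝ)| ≤ R := by
    obtain ⟨B, hB⟩ := (F.image fun x => |(x j : ℝ)|).bddAbove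
    obtain ⟨R, hR⟩ := exists_nat_ge B
    exact ⟨R, fun x hx => (hB (Finset.mem_coe.2 (Finset.mem_image_of_mem _ hx))).trans hR⟩
  refine le_trans ?_ (key2 R)
  refine le_trans (le_of_eq ?_) (ENNReal.sum_le_tsum F)
  refine Finset.sum_congr rfl fun x hx => ?_
  unfold ww
  rw [min_eq_right (hR x hx)]

/-- the propagation bound, uniform constant -/
theorem exp_bound (d : ℕ) (c : ℝ) : ∃ κ : ℝ, 0 < κ ∧ ∀ (j : Fin d) (V : Site d → ℝ)
    (W : UG (L2 (Site d))), IsGrp c V W → ∀ (u : L2 (Site d)) (t : ℝ), 0 ≤ t →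
      EE j (W.U t u) ≤ ENNReal.ofReal (Real.exp (κ * t) ^ 2) * EE j u := by
  choose κ hκ h using fun j : Fin d => exp_bound1 c j
  refine ⟨1 + ∑ j, κ j, by have := Finset.sum_nonneg fun j (_ : j ∈ Finset.univ) => hκ j; linarith, ?_⟩
  intro j V W hW u t ht
  refine (h j V W hW u t ht).trans ?_
  gcongr
  have := Finset.single_le_sum (f := κ) (fun j _ => hκ j) (Finset.mem_univ j)
  linarith

end Pool.Agent.U619.NB
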