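import Pool.Agent.U619.NB.Exp

/-! # All moments are subballistic -/

set_option autoImplicit false

open MeasureTheory Filter Topology
open scoped BigOperators ENNReal NNReal InnerProductSpace ComplexConjugate

namespace Pool.Agent.U619.NB

open Pool.Agent.H5R2.NB Pool.Agent.H5R2.NB.MOM Pool.Agent.R988.NQ

variable {d : ℕ}

/-- the `p`-th moment of the position -/
noncomputable def Mp (p : ℝ) (u : L2 (Site d)) : ℝ≥0∞ :=
  ∑' x : Site d, ENNReal.ofReal ((∑ i : Fin d, (x i : ℝ) ^ 2) ^ (p / 2)) * ‖u x‖ₑ ^ 2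

theorem low_pt (p s q : ℝ) (hp : 0 < p) (hp2 : p ≤ 2) (hs : 0 < s) (hq : 0 ≤ q) :
    q ^ (p / 2) ≤ s ^ p + s ^ (p - 2) * q := by
  have e1 : (s ^ 2) ^ (p / 2) = s ^ p := by
    rw [← Real.rpow_natCast s 2, ← Real.rpow_mul hs.le]
    congr 1
    push_cast
    ring
  have h1 : 0 ≤ s ^ (p - 2) * q := mul_nonneg (Real.rpow_nonneg hs.le _) hq
  have h2 : 0 ≤ s ^ p := Real.rpow_nonneg hs.le _
  rcases le_or_gt q (s ^ 2) with h | h
  · have := Real.rpow_le_rpow hq h (by linarith : 0 ≤ p / 2)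
    rw [e1] at this
    linarith
  · have hq0 : 0 < q := lt_trans (by positivity) h
    have e2 : q ^ (p / 2) = q ^ (p / 2 - 1) * q := by
      rw [Real.rpow_sub_one hq0.ne', div_mul_cancel₀ _ hq0.ne']
    have e3 : (s ^ 2) ^ (p / 2 - 1) = s ^ (p - 2) := by
      rw [← Real.rpow_natCast s 2, ← Real.rpow_mul hs.le]
      congr 1
      push_cast
      ring
    have h3 : q ^ (p / 2 - 1) ≤ s ^ (p - 2) := by
      rw [← e3]
      exact Real.rpow_le_rpow_of_nonpos (by positivity) h.le (by linarith)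
    rw [e2]
    have := mul_le_mul_of_nonneg_right h3 hq
    linarith

theorem pow_exp (p b : ℝ) (hp : 0 < p) (hb : 0 < b) : ∃ K : ℝ, 0 < K ∧ ∀ r : ℝ, 0 ≤ r →
    r ^ p ≤ K * Real.exp (b * r) := by
  obtain ⟨n, hn⟩ := exists_nat_ge p
  refine ⟨1 + (n.factorial : ℝ) / b ^ n, by positivity, fun r hr => ?_⟩
  have h1 : (b * r) ^ n / n.factorial ≤ Real.exp (b * r) :=
    Real.pow_div_factorial_le_exp (b * r) (by positivity) n
  have h2 : r ^ n ≤ (n.factorial : ℝ) / b ^ n * Real.exp (b * r) := by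
    have hf : (0 : ℝ) < n.factorial := by exact_mod_cast n.factorial_pos
    have hbn : 0 < b ^ n := by positivity
    rw [div_mul_eq_mul_div, le_div_iff₀ hbn]
    rw [div_le_iff₀ hf, mul_pow] at h1
    linarith
  have h3 : 1 ≤ Real.exp (b * r) := Real.one_le_exp (by positivity)
  have h4 : r ^ p ≤ 1 + r ^ n := by
    rcases le_or_gt r 1 with h | h
    · have := Real.rpow_le_one hr h hp.le
      have : 0 ≤ r ^ n := by positivity
      linarith
    · have := Real.rpow_le_rpow_of_exponent_le h.le hn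
      rw [Real.rpow_natCast] at this
      linarith
  rw [add_mul, one_mul]
  linarith

theorem high_pt (hd : 0 < d) (p : ℝ) (hp : 2 < p) : ∃ K : ℝ, 0 < K ∧ ∀ (s : ℝ), 0 < s →
    ∀ x : Site d, (∑ i : Fin d, (x i : ℝ) ^ 2) ^ (p / 2) ≤
      s ^ (p - 2) * (∑ i : Fin d, (x i : ℝ) ^ 2) +
        K * Real.exp (-((1 / d) * s)) * ∑ j : Fin d, Real.exp (|(x j : ℝ)|) ^ 2 := by
  have hd0 : (0 : ℝ) < d := by exact_mod_cast hd
  obtain ⟨K, hK, h⟩ := pow_exp p (1 / d) (by linarith) (by positivity)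
  refine ⟨K, hK, fun s hs x => ?_⟩
  obtain ⟨q, hq⟩ : ∃ q : ℝ, q = ∑ i : Fin d, (x i : ℝ) ^ 2 := ⟨_, rfl⟩
  rw [← hq]
  have hq0 : 0 ≤ q := by rw [hq]; exact Finset.sum_nonneg fun i _ => sq_nonneg _
  have hsum0 : 0 ≤ ∑ j : Fin d, Real.exp (|(x j : ℝ)|) ^ 2 :=
    Finset.sum_nonneg fun j _ => by positivity
  rcases le_or_gt q (s ^ 2) with hc | hc
  · have h3 : q ^ (p / 2) ≤ s ^ (p - 2) * q := by
      rcases eq_or_lt_of_le hq0 with h0 | h0
      · rw [← h0, Real.zero_rpow (by linarith)]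
        simp
      · have e2 : q ^ (p / 2) = q ^ (p / 2 - 1) * q := by
          rw [Real.rpow_sub_one h0.ne', div_mul_cancel₀ _ h0.ne']
        have e3 : (s ^ 2) ^ (p / 2 - 1) = s ^ (p - 2) := by
          rw [← Real.rpow_natCast s 2, ← Real.rpow_mul hs.le]
          congr 1
          push_cast
          ring
        rw [e2, ← e3]
        exact mul_le_mul_of_nonneg_right (Real.rpow_le_rpow hq0 hc (by linarith)) hq0
    have : 0 ≤ K * Real.exp (-((1 / d) * s)) * ∑ j : Fin d, Real.exp (|(x j : ℝ)|) ^ 2 := by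
      positivity
    linarith
  · obtain ⟨r, hr⟩ : ∃ r : ℝ, r = Real.sqrt q := ⟨_, rfl⟩
    have hr0 : 0 ≤ r := by rw [hr]; exact Real.sqrt_nonneg _
    have hrq : r ^ 2 = q := by rw [hr]; exact Real.sq_sqrt hq0
    have hsr : s < r := by rw [hr]; exact Real.lt_sqrt_of_sq_lt hc
    have e1 : q ^ (p / 2) = r ^ p := by
      rw [← hrq, ← Real.rpow_natCast r 2, ← Real.rpow_mul hr0]
      congr 1
      push_cast
      ring
    have h1 := h r hr0
    obtain ⟨j, hj⟩ : ∃ j : Fin d, 1 / d * r ≤ |(x j : ℝ)| := by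
      by_contra hcon
      push Not at hcon
      have : Nonempty (Fin d) := ⟨⟨0, hd⟩⟩
      have h2 : q < ∑ _i : Fin d, (1 / d * r) ^ 2 := by
        rw [hq]
        refine Finset.sum_lt_sum_of_nonempty Finset.univ_nonempty fun i _ => ?_
        rw [← sq_abs (x i : ℝ)]
        exact pow_lt_pow_left₀ (hcon i) (abs_nonneg _) two_ne_zero
      rw [Finset.sum_const, Finset.card_univ, Fintype.card_fin, nsmul_eq_mul] at h2
      have h3 : (d : ℝ) * (1 / d * r) ^ 2 ≤ q := by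
        rw [← hrq]
        have e : (d : ℝ) * (1 / d * r) ^ 2 = r ^ 2 / d := by
          field_simp
        rw [e]
        refine div_le_self (sq_nonneg r) ?_
        exact_mod_cast hd
      linarith
    have h2 : Real.exp (1 / d * r) ≤ Real.exp (-((1 / d) * s)) *
        ∑ j : Fin d, Real.exp (|(x j : ℝ)|) ^ 2 := by
      have h3 : Real.exp (|(x j : ℝ)|) ^ 2 ≤ ∑ j : Fin d, Real.exp (|(x j : ℝ)|) ^ 2 :=
        Finset.single_le_sum (f := fun j : Fin d => Real.exp (|(x j : ℝ)|) ^ 2)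
          (fun j _ => by positivity) (Finset.mem_univ j)
      have h4 : Real.exp (1 / d * r) ≤ Real.exp (-((1 / d) * s)) *
          Real.exp (|(x j : ℝ)|) ^ 2 := by
        rw [← Real.exp_nat_mul, ← Real.exp_add]
        refine Real.exp_le_exp.2 ?_
        push_cast
        have : 1 / (d : ℝ) * s ≤ 1 / d * r :=
          mul_le_mul_of_nonneg_left hsr.le (by positivity)
        linarith
      exact h4.trans (mul_le_mul_of_nonneg_left h3 (Real.exp_pos _).le)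
    have h5 := mul_le_mul_of_nonneg_left h2 hK.le
    have h6 : 0 ≤ s ^ (p - 2) * q := mul_nonneg (Real.rpow_nonneg hs.le _) hq0
    rw [e1]
    linarith

theorem low_le (p : ℝ) (hp : 0 < p) (hp2 : p ≤ 2) (s : ℝ) (hs : 0 < s) (u : L2 (Site d)) :
    Mp p u ≤ ENNReal.ofReal (s ^ p) * ‖u‖ₑ ^ 2 + ENNReal.ofReal (s ^ (p - 2)) * M2 u := by
  rw [← enorm_sq u]
  unfold Mp M2
  rw [← ENNReal.tsum_mul_left, ← ENNReal.tsum_mul_left, ← ENNReal.tsum_add]
  refine ENNReal.tsum_le_tsum fun x => ?_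
  have hq0 : 0 ≤ ∑ i : Fin d, (x i : ℝ) ^ 2 := Finset.sum_nonneg fun i _ => sq_nonneg _
  have h := low_pt p s (∑ i : Fin d, (x i : ℝ) ^ 2) hp hp2 hs hq0
  rw [← mul_assoc, ← add_mul, ← ENNReal.ofReal_mul (Real.rpow_nonneg hs.le _),
    ← ENNReal.ofReal_add (Real.rpow_nonneg hs.le _)
      (mul_nonneg (Real.rpow_nonneg hs.le _) hq0)]
  exact mul_le_mul' (ENNReal.ofReal_le_ofReal h) le_rfl

theorem high_le (hd : 0 < d) (p : ℝ) (hp : 2 < p) : ∃ K : ℝ, 0 < K ∧ ∀ (s : ℝ), 0 < s →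
    ∀ u : L2 (Site d), Mp p u ≤ ENNReal.ofReal (s ^ (p - 2)) * M2 u +
      ENNReal.ofReal (K * Real.exp (-((1 / d) * s))) * ∑ j : Fin d, EE j u := by
  obtain ⟨K, hK, h⟩ := high_pt hd p hp
  refine ⟨K, hK, fun s hs u => ?_⟩
  have e : ∑ j : Fin d, EE j u = ∑' x : Site d, ENNReal.ofReal
      (∑ j : Fin d, Real.exp (|(x j : ℝ)|) ^ 2) * ‖u x‖ₑ ^ 2 := by
    have e2 : ∀ x : Site d, ENNReal.ofReal (∑ j : Fin d, Real.exp (|(x j : ℝ)|) ^ 2) *
        ‖u x‖ₑ ^ 2 = ∑ j : Fin d, ENNReal.ofReal (Real.exp (|(x j : ℝ)|) ^ 2) * ‖u x‖ₑ ^ 2 := by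
      intro x
      rw [ENNReal.ofReal_sum_of_nonneg (fun i _ => sq_nonneg _), Finset.sum_mul]
    simp_rw [e2]
    rw [Summable.tsum_finsetSum (fun i _ => ENNReal.summable)]
    rfl
  rw [e]
  unfold Mp M2
  rw [← ENNReal.tsum_mul_left, ← ENNReal.tsum_mul_left, ← ENNReal.tsum_add]
  refine ENNReal.tsum_le_tsum fun x => ?_
  have hq0 : 0 ≤ ∑ i : Fin d, (x i : ℝ) ^ 2 := Finset.sum_nonneg fun i _ => sq_nonneg _
  have hsum0 : 0 ≤ ∑ j : Fin d, Real.exp (|(x j : ℝ)|) ^ 2 :=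
    Finset.sum_nonneg fun j _ => by positivity
  have hK2 : 0 ≤ K * Real.exp (-((1 / d) * s)) := by positivity
  rw [← mul_assoc, ← mul_assoc, ← add_mul, ← ENNReal.ofReal_mul (Real.rpow_nonneg hs.le _),
    ← ENNReal.ofReal_mul hK2,
    ← ENNReal.ofReal_add (mul_nonneg (Real.rpow_nonneg hs.le _) hq0) (mul_nonneg hK2 hsum0)]
  exact mul_le_mul' (ENNReal.ofReal_le_ofReal (h s hs x)) le_rfl

/-- the moments at time `t`, `p > 2` -/
theorem high_evo (hd : 0 < d) (c : ℝ) (p : ℝ) (hp : 2 < p) : ∃ L K : ℝ, 0 < L ∧ 0 < K ∧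
    ∀ (V : Site d → ℝ) (W : UG (L2 (Site d))), IsGrp c V W → ∀ (u : L2 (Site d)) (t : ℝ), 0 < t →
      Mp p (W.U t u) ≤ ENNReal.ofReal ((L * t) ^ (p - 2)) * M2 (W.U t u) +
        ENNReal.ofReal K * ∑ j : Fin d, EE j u := by
  have hd0 : (0 : ℝ) < d := by exact_mod_cast hd
  obtain ⟨κ, hκ, h1⟩ := exp_bound d c
  obtain ⟨K, hK, h2⟩ := high_le hd p hp
  refine ⟨2 * κ * d, K, by positivity, hK, fun V W hW u t ht => ?_⟩
  refine (h2 (2 * κ * d * t) (by positivity) (W.U t u)).trans ?_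
  refine add_le_add le_rfl ?_
  calc ENNReal.ofReal (K * Real.exp (-((1 / d) * (2 * κ * d * t)))) * ∑ j : Fin d, EE j (W.U t u)
      ≤ ENNReal.ofReal (K * Real.exp (-((1 / d) * (2 * κ * d * t)))) *
        ∑ j : Fin d, ENNReal.ofReal (Real.exp (κ * t) ^ 2) * EE j u := by
        gcongr with j _
        exact h1 j V W hW u t ht.le
    _ = ENNReal.ofReal K * ∑ j : Fin d, EE j u := by
        rw [← Finset.mul_sum, ← mul_assoc, ← ENNReal.ofReal_mul (by positivity)]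
        congr 2
        rw [mul_assoc, ← Real.exp_nat_mul, ← Real.exp_add]
        have : -((1 / (d : ℝ)) * (2 * κ * d * t)) + ((2 : ℕ) : ℝ) * (κ * t) = 0 := by
          push_cast
          field_simp
          ring
        rw [this, Real.exp_zero, mul_one]

/-- from second to `p`-th moments -/
theorem abs_low (p : ℝ) (hp : 0 < p) (m2 mp : ℝ → ℝ≥0∞) (A : ℝ≥0∞) (hA : A ≠ ∞)
    (h2 : Tendsto (fun t : ℝ => m2 t / ENNReal.ofReal (t ^ 2)) atTop (𝓝 0))
    (h : ∀ s : ℝ, 0 < s → ∀ t : ℝ,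
      mp t ≤ ENNReal.ofReal (s ^ p) * A + ENNReal.ofReal (s ^ (p - 2)) * m2 t) :
    Tendsto (fun t : ℝ => mp t / ENNReal.ofReal (t ^ p)) atTop (𝓝 0) := by
  rw [ENNReal.tendsto_nhds_zero]
  intro δ hδ
  have hδ2 : 0 < δ / 2 := ENNReal.half_pos hδ.ne'
  obtain ⟨ε, hε, hε2⟩ : ∃ ε : ℝ, 0 < ε ∧ ENNReal.ofReal (ε ^ p) * A ≤ δ / 2 := by
    have h1 : Tendsto (fun η : ℝ => ENNReal.ofReal (η ^ p) * A) (𝓝[>] 0) (𝓝 0) := by
      have hc : Continuous fun η : ℝ => ENNReal.ofReal (η ^ p) :=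
        ENNReal.continuous_ofReal.comp (Real.continuous_rpow_const hp.le)
      have h2 := (hc.tendsto 0).mono_left (nhdsWithin_le_nhds (s := Set.Ioi (0 : ℝ)))
      have h3 := ENNReal.Tendsto.mul_const (b := A) h2 (Or.inr hA)
      simpa [Real.zero_rpow hp.ne'] using h3
    obtain ⟨η, h3, h4⟩ := ((ENNReal.tendsto_nhds_zero.1 h1 (δ / 2) hδ2).and
      self_mem_nhdsWithin).exists
    exact ⟨η, h4, h3⟩
  have h3 : Tendsto (fun t : ℝ => ENNReal.ofReal (ε ^ (p - 2)) *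
      (m2 t / ENNReal.ofReal (t ^ 2))) atTop (𝓝 0) := by
    have := ENNReal.Tendsto.const_mul (a := ENNReal.ofReal (ε ^ (p - 2))) h2
      (Or.inr ENNReal.ofReal_ne_top)
    simpa using this
  filter_upwards [ENNReal.tendsto_nhds_zero.1 h3 (δ / 2) hδ2, eventually_gt_atTop (0 : ℝ)]
    with t ht ht0
  have htp : 0 < t ^ p := Real.rpow_pos_of_pos ht0 p
  have e1 : ENNReal.ofReal ((ε * t) ^ p) / ENNReal.ofReal (t ^ p) = ENNReal.ofReal (ε ^ p) := by
    rw [← ENNReal.ofReal_div_of_pos htp, Real.mul_rpow hε.le ht0.le,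
      mul_div_assoc, div_self htp.ne', mul_one]
  have e2 : ENNReal.ofReal ((ε * t) ^ (p - 2)) / ENNReal.ofReal (t ^ p) =
      ENNReal.ofReal (ε ^ (p - 2)) / ENNReal.ofReal (t ^ 2) := by
    rw [← ENNReal.ofReal_div_of_pos htp, ← ENNReal.ofReal_div_of_pos (by positivity),
      Real.mul_rpow hε.le ht0.le]
    congr 1
    rw [Real.rpow_sub ht0]
    have : t ^ (2 : ℝ) = t ^ 2 := by
      rw [← Real.rpow_natCast t 2]
      norm_num
    rw [this]
    field_simp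
  calc mp t / ENNReal.ofReal (t ^ p)
      ≤ (ENNReal.ofReal ((ε * t) ^ p) * A + ENNReal.ofReal ((ε * t) ^ (p - 2)) * m2 t) /
        ENNReal.ofReal (t ^ p) := ENNReal.div_le_div_right (h (ε * t) (by positivity) t) _
    _ = ENNReal.ofReal (ε ^ p) * A +
        ENNReal.ofReal (ε ^ (p - 2)) * (m2 t / ENNReal.ofReal (t ^ 2)) := by
        rw [ENNReal.add_div, ← e1, ENNReal.div_eq_inv_mul, ENNReal.div_eq_inv_mul,
          ENNReal.div_eq_inv_mul, ← mul_assoc, ← mul_assoc]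
        congr 1
        rw [← ENNReal.div_eq_inv_mul, e2]
        rw [ENNReal.div_eq_inv_mul, ENNReal.div_eq_inv_mul]
        ring
    _ ≤ δ / 2 + δ / 2 := add_le_add hε2 ht
    _ = δ := ENNReal.add_halves δ

theorem abs_high (p : ℝ) (hp : 2 < p) (m2 mp : ℝ → ℝ≥0∞) (L : ℝ) (hL : 0 < L) (B : ℝ≥0∞)
    (hB : B ≠ ∞)
    (h2 : Tendsto (fun t : ℝ => m2 t / ENNReal.ofReal (t ^ 2)) atTop (𝓝 0))
    (h : ∀ t : ℝ, 0 < t → mp t ≤ ENNReal.ofReal ((L * t) ^ (p - 2)) * m2 t + B) :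
    Tendsto (fun t : ℝ => mp t / ENNReal.ofReal (t ^ p)) atTop (𝓝 0) := by
  have h3 : Tendsto (fun t : ℝ => ENNReal.ofReal (L ^ (p - 2)) *
      (m2 t / ENNReal.ofReal (t ^ 2)) + B / ENNReal.ofReal (t ^ p)) atTop (𝓝 0) := by
    have h4 := ENNReal.Tendsto.const_mul (a := ENNReal.ofReal (L ^ (p - 2))) h2
      (Or.inr ENNReal.ofReal_ne_top)
    have h5 : Tendsto (fun t : ℝ => B / ENNReal.ofReal (t ^ p)) atTop (𝓝 0) := by
      have hp' : Tendsto (fun t : ℝ => ENNReal.ofReal (t ^ p)) atTop (𝓝 ∞) :=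
        ENNReal.tendsto_ofReal_atTop.comp (tendsto_rpow_atTop (by linarith))
      have := ENNReal.Tendsto.const_div (a := B) hp' (Or.inr hB)
      simpa using this
    simpa using h4.add h5
  refine tendsto_of_tendsto_of_tendsto_of_le_of_le' tendsto_const_nhds h3
    (Eventually.of_forall fun t => bot_le) ?_
  filter_upwards [eventually_gt_atTop (0 : ℝ)] with t ht0
  have htp : 0 < t ^ p := Real.rpow_pos_of_pos ht0 p
  have e2 : ENNReal.ofReal ((L * t) ^ (p - 2)) / ENNReal.ofReal (t ^ p) =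
      ENNReal.ofReal (L ^ (p - 2)) / ENNReal.ofReal (t ^ 2) := by
    rw [← ENNReal.ofReal_div_of_pos htp, ← ENNReal.ofReal_div_of_pos (by positivity),
      Real.mul_rpow hL.le ht0.le]
    congr 1
    rw [Real.rpow_sub ht0]
    have : t ^ (2 : ℝ) = t ^ 2 := by
      rw [← Real.rpow_natCast t 2]
      norm_num
    rw [this]
    field_simp
  calc mp t / ENNReal.ofReal (t ^ p)
      ≤ (ENNReal.ofReal ((L * t) ^ (p - 2)) * m2 t + B) / ENNReal.ofReal (t ^ p) :=
        ENNReal.div_le_div_right (h t ht0) _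
    _ = ENNReal.ofReal (L ^ (p - 2)) * (m2 t / ENNReal.ofReal (t ^ 2)) +
        B / ENNReal.ofReal (t ^ p) := by
        rw [ENNReal.add_div]
        congr 1
        rw [ENNReal.div_eq_inv_mul, ← mul_assoc, ← ENNReal.div_eq_inv_mul, e2,
          ENNReal.div_eq_inv_mul, ENNReal.div_eq_inv_mul]
        ring

variable {c : ℝ} {ev : (Site d → ℝ) → UG (L2 (Site d))}
variable {ν : Measure ℝ} [IsProbabilityMeasure ν]

/-- all moments, almost surely -/
theorem moments (hd : 0 < d) (hev : ∀ V, IsGrp c V (ev V)) {C : ℝ≥0} (hν : ν ≤ C • volume) :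
    ∀ᵐ V ∂(PP d ν), ∀ (p : ℝ), 0 < p → ∀ u : L2 (Site d), M2 u ≠ ∞ → (∀ j, EE j u ≠ ∞) →
      Tendsto (fun t : ℝ => Mp p ((ev V).U t u) / ENNReal.ofReal (t ^ p)) atTop (𝓝 0) := by
  filter_upwards [all_zero hev hν] with V hV
  intro p hp u hm hE
  have h2 := (hV u).2.1 hm
  rcases le_or_gt p 2 with hp2 | hp2
  · refine abs_low p hp _ _ (‖u‖ₑ ^ 2) (ENNReal.pow_ne_top enorm_ne_top) h2 fun s hs t => ?_
    have := low_le p hp hp2 s hs ((ev V).U t u)
    have e : ‖(ev V).U t u‖ₑ = ‖u‖ₑ := by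
      rw [← ofReal_norm, (ev V).norm', ofReal_norm]
    rwa [e] at this
  · obtain ⟨L, K, hL, hK, h⟩ := high_evo hd c p hp2
    refine abs_high p hp2 _ _ L hL (ENNReal.ofReal K * ∑ j : Fin d, EE j u) ?_ h2
      fun t ht => h V (ev V) (hev V) u t ht
    exact ENNReal.mul_ne_top ENNReal.ofReal_ne_top (ENNReal.sum_ne_top.2 fun j _ => hE j)

theorem EE_dl (j : Fin d) (z : Site d) : EE j (dl z) ≠ ∞ := by
  classical
  have h : EE j (dl z) = ENNReal.ofReal (Real.exp (|(z j : ℝ)|) ^ 2) *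
      ‖(dl z : L2 (Site d)) z‖ₑ ^ 2 := by
    unfold EE
    rw [tsum_eq_single z]
    intro x hx
    have : (dl z : L2 (Site d)) x = 0 := by
      unfold dl
      rw [lp.coeFn_single]
      exact Pi.single_eq_of_ne hx _
    rw [this]
    simp
  rw [h]
  exact ENNReal.mul_ne_top ENNReal.ofReal_ne_top (ENNReal.pow_ne_top enorm_ne_top)

/-- all moments, in the mean -/
theorem moments_mean (hd : 0 < d) (hev : ∀ V, IsGrp c V (ev V)) {C : ℝ≥0} (hν : ν ≤ C • volume)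
    (p : ℝ) (hp : 0 < p) :
    Tendsto (fun t : ℝ => (∫⁻ V, Mp p ((ev V).U t (dl 0)) ∂(PP d ν)) / ENNReal.ofReal (t ^ p))
      atTop (𝓝 0) := by
  have h2 : Tendsto (fun t : ℝ => (∫⁻ V, M2 ((ev V).U t (dl 0)) ∂(PP d ν)) /
      ENNReal.ofReal (t ^ 2)) atTop (𝓝 0) := ALL.a_MAIN d c ev hev ν C hν
  have hprob : IsProbabilityMeasure (PP d ν) := by
    unfold PP
    infer_instance
  rcases le_or_gt p 2 with hp2 | hp2
  · refine abs_low p hp _ _ 1 (by norm_num) h2 fun s hs t => ?_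
    have h1 : ∀ V, Mp p ((ev V).U t (dl 0)) ≤ ENNReal.ofReal (s ^ p) * 1 +
        ENNReal.ofReal (s ^ (p - 2)) * M2 ((ev V).U t (dl 0)) := by
      intro V
      have := low_le p hp hp2 s hs ((ev V).U t (dl 0))
      have e : ‖(ev V).U t (dl 0)‖ₑ = 1 := by
        rw [← ofReal_norm, (ev V).norm', GEN.norm_dl]
        simp
      rw [e] at this
      simpa using this
    refine (lintegral_mono h1).trans (le_of_eq ?_)
    rw [lintegral_add_left measurable_const, lintegral_const, measure_univ, mul_one,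
      lintegral_const_mul' _ _ ENNReal.ofReal_ne_top]
  · obtain ⟨L, K, hL, hK, h⟩ := high_evo hd c p hp2
    refine abs_high p hp2 _ _ L hL (ENNReal.ofReal K * ∑ j : Fin d, EE j (dl 0)) ?_ h2
      fun t ht => ?_
    · exact ENNReal.mul_ne_top ENNReal.ofReal_ne_top
        (ENNReal.sum_ne_top.2 fun j _ => EE_dl j 0)
    · refine (lintegral_mono fun V => h V (ev V) (hev V) (dl 0) t ht).trans (le_of_eq ?_)
      rw [lintegral_add_right _ measurable_const, lintegral_const, measure_univ, mul_one,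
        lintegral_const_mul' _ _ ENNReal.ofReal_ne_top]

end Pool.Agent.U619.NB
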