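import Pool.Agent.R988.NQ.QAll
import Pool.Agent.R988.NQ.Mom2

/-! # Zero velocity of every state, bounded density -/

set_option autoImplicit false

open MeasureTheory Filter Topology
open scoped BigOperators ENNReal NNReal InnerProductSpace ComplexConjugate

namespace Pool.Agent.U619.NB

open Pool.Agent.H5R2.NB Pool.Agent.R988.NQ

variable {d : ℕ} {c : ℝ} {ev : (Site d → ℝ) → UG (L2 (Site d))}
variable {ν : Measure ℝ} [IsProbabilityMeasure ν]

/-- the second moment of the position -/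
noncomputable def M2 (u : L2 (Site d)) : ℝ≥0∞ :=
  ∑' x : Site d, ENNReal.ofReal (∑ i : Fin d, (x i : ℝ) ^ 2) * ‖u x‖ₑ ^ 2

/-- the mass outside the ball of radius `R` -/
noncomputable def out (R : ℝ) (u : L2 (Site d)) : ℝ≥0∞ :=
  ∑' x : Site d, if R ^ 2 < ∑ i : Fin d, (x i : ℝ) ^ 2 then ‖u x‖ₑ ^ 2 else 0

theorem second_eq (u : L2 (Site d)) : M2 u = ∑ j : Fin d, m2 j u := by
  unfold M2 m2
  have e2 : ∀ x : Site d, ENNReal.ofReal (∑ i : Fin d, (x i : ℝ) ^ 2) *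
      ‖u x‖ₑ ^ 2 = ∑ j : Fin d, ENNReal.ofReal ((x j : ℝ) ^ 2) * ‖u x‖ₑ ^ 2 := by
    intro x
    rw [ENNReal.ofReal_sum_of_nonneg (fun i _ => sq_nonneg _), Finset.sum_mul]
  simp_rw [e2]
  rw [Summable.tsum_finsetSum (fun i _ => ENNReal.summable)]

theorem tendsto_aux {a : ℝ≥0∞} (ha : a ≠ ∞) {g : ℝ → ℝ≥0∞}
    (hg : Tendsto (fun t : ℝ => g t / ENNReal.ofReal (t ^ 2)) atTop (𝓝 0)) :
    Tendsto (fun t : ℝ => (2 * a + 2 * g t) / ENNReal.ofReal (t ^ 2)) atTop (𝓝 0) := by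
  have h1 : Tendsto (fun t : ℝ => 2 * a / ENNReal.ofReal (t ^ 2)) atTop (𝓝 0) := by
    have hp : Tendsto (fun t : ℝ => ENNReal.ofReal (t ^ 2)) atTop (𝓝 ∞) :=
      ENNReal.tendsto_ofReal_atTop.comp (tendsto_pow_atTop (by norm_num))
    have h2a : 2 * a ≠ ∞ := ENNReal.mul_ne_top (by norm_num) ha
    have := ENNReal.Tendsto.const_div (a := 2 * a) hp (Or.inr h2a)
    simpa using this
  have h2 := ENNReal.Tendsto.const_mul (a := 2) hg (Or.inr (by norm_num))
  have h3 := h1.add h2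
  simp only [mul_zero, add_zero] at h3
  refine h3.congr fun t => ?_
  rw [ENNReal.add_div, mul_div_assoc (2 : ℝ≥0∞) (g t)]

theorem esq_le (a b : ℂ) : ‖a + b‖ₑ ^ 2 ≤ 2 * ‖a‖ₑ ^ 2 + 2 * ‖b‖ₑ ^ 2 :=
  (pow_le_pow_left' (enorm_add_le a b) 2).trans (sq_add_le _ _)

theorem M2_add (u w : L2 (Site d)) : M2 (u + w) ≤ 2 * M2 u + 2 * M2 w := by
  unfold M2
  rw [← ENNReal.tsum_mul_left, ← ENNReal.tsum_mul_left, ← ENNReal.tsum_add]
  refine ENNReal.tsum_le_tsum fun x => ?_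
  have h : (u + w) x = u x + w x := rfl
  rw [h]
  calc ENNReal.ofReal (∑ i : Fin d, (x i : ℝ) ^ 2) * ‖u x + w x‖ₑ ^ 2
      ≤ ENNReal.ofReal (∑ i : Fin d, (x i : ℝ) ^ 2) * (2 * ‖u x‖ₑ ^ 2 + 2 * ‖w x‖ₑ ^ 2) :=
        mul_le_mul' le_rfl (esq_le _ _)
    _ = _ := by ring

theorem M2_smul (a : ℂ) (u : L2 (Site d)) : M2 (a • u) = ‖a‖ₑ ^ 2 * M2 u := by
  unfold M2
  rw [← ENNReal.tsum_mul_left]
  refine tsum_congr fun x => ?_
  have h : (a • u) x = a * u x := rfl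
  rw [h, enorm_mul, mul_pow]
  ring

theorem M2_dl (z : Site d) : M2 (dl z) ≠ ∞ := by
  classical
  have h : M2 (dl z) = ENNReal.ofReal (∑ i : Fin d, (z i : ℝ) ^ 2) * ‖(dl z : L2 (Site d)) z‖ₑ ^ 2 := by
    unfold M2
    rw [tsum_eq_single z]
    intro x hx
    have : (dl z : L2 (Site d)) x = 0 := by
      unfold dl
      rw [lp.coeFn_single]
      exact Pi.single_eq_of_ne hx _
    rw [this]
    simp
  rw [h]
  refine ENNReal.mul_ne_top ENNReal.ofReal_ne_top (ENNReal.pow_ne_top ?_)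
  exact enorm_ne_top

/-- states with finite second moment are dense -/
theorem exists_near (u : L2 (Site d)) (δ : ℝ) (hδ : 0 < δ) :
    ∃ w : L2 (Site d), M2 w ≠ ∞ ∧ ‖u - w‖ < δ := by
  have hd := LIMB.dl_dense d u
  rw [Metric.mem_closure_iff] at hd
  obtain ⟨w, hw, hw2⟩ := hd δ hδ
  refine ⟨w, ?_, by rwa [dist_eq_norm] at hw2⟩
  refine Submodule.span_induction (p := fun w _ => M2 w ≠ ∞) ?_ ?_ ?_ ?_ hw
  · rintro _ ⟨z, rfl⟩
    exact M2_dl z
  · have h : M2 (0 : L2 (Site d)) = 0 := by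
      unfold M2
      simp
    rw [h]
    exact ENNReal.zero_ne_top
  · intro x y _ _ hx hy
    refine ne_top_of_le_ne_top ?_ (M2_add x y)
    exact ENNReal.add_ne_top.2 ⟨ENNReal.mul_ne_top (by norm_num) hx,
      ENNReal.mul_ne_top (by norm_num) hy⟩
  · intro a x _ hx
    rw [M2_smul]
    exact ENNReal.mul_ne_top (ENNReal.pow_ne_top enorm_ne_top) hx

theorem out_le (R : ℝ) (hR : 0 < R) (u : L2 (Site d)) :
    out R u ≤ M2 u / ENNReal.ofReal (R ^ 2) := by
  have hR2 : 0 < R ^ 2 := by positivity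
  unfold out M2
  rw [ENNReal.div_eq_inv_mul, ← ENNReal.tsum_mul_left]
  refine ENNReal.tsum_le_tsum fun x => ?_
  split_ifs with h
  · rw [← mul_assoc]
    have h1 : (1 : ℝ≥0∞) ≤ (ENNReal.ofReal (R ^ 2))⁻¹ *
        ENNReal.ofReal (∑ i : Fin d, (x i : ℝ) ^ 2) := by
      rw [← ENNReal.div_eq_inv_mul, ENNReal.le_div_iff_mul_le
        (Or.inl (ENNReal.ofReal_pos.2 hR2).ne') (Or.inl ENNReal.ofReal_ne_top), one_mul]
      exact ENNReal.ofReal_le_ofReal h.le
    calc ‖u x‖ₑ ^ 2 = 1 * ‖u x‖ₑ ^ 2 := (one_mul _).symm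
      _ ≤ _ := mul_le_mul' h1 le_rfl
  · exact bot_le

theorem out_add (R : ℝ) (u w : L2 (Site d)) : out R u ≤ 2 * out R w + 2 * ‖u - w‖ₑ ^ 2 := by
  rw [← MOM.enorm_sq (u - w)]
  unfold out
  rw [← ENNReal.tsum_mul_left, ← ENNReal.tsum_mul_left, ← ENNReal.tsum_add]
  refine ENNReal.tsum_le_tsum fun x => ?_
  split_ifs with h
  · have e : u x = w x + (u - w) x := by
      have : (u - w) x = u x - w x := rfl
      rw [this]; ring
    conv_lhs => rw [e]
    exact esq_le _ _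
  · exact bot_le

/-- almost surely every state has zero asymptotic velocity -/
theorem all_zero (hev : ∀ V, IsGrp c V (ev V)) {C : ℝ≥0} (hν : ν ≤ C • volume) :
    ∀ᵐ V ∂(PP d ν), ∀ u : L2 (Site d),
      (∀ (j : Fin d) (v : L2 (Site d) →L[ℂ] L2 (Site d)), IsVel c j v →
        Tendsto (fun T : ℝ => ((T : ℂ)⁻¹) • ∫ s in (0 : ℝ)..T,
          (ev V).U (-s) (v ((ev V).U s u))) atTop (𝓝 0)) ∧
      (M2 u ≠ ∞ → Tendsto (fun t : ℝ => M2 ((ev V).U t u) / ENNReal.ofReal (t ^ 2))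
        atTop (𝓝 0)) ∧
      (∀ ε : ℝ, 0 < ε → Tendsto (fun t : ℝ => out (ε * t) ((ev V).U t u)) atTop (𝓝 0)) := by
  choose v0 hv0 using fun i : Fin d => (t_OPS d).2.2 c i
  have huniq : ∀ (j : Fin d) (v : L2 (Site d) →L[ℂ] L2 (Site d)), IsVel c j v → v = v0 j := by
    intro j v hv
    ext u x
    rw [hv u x, hv0 j u x]
  have hall : ∀ᵐ V ∂(PP d ν), ∀ j : Fin d, ∀ x, Tendsto (fun t : ℝ => t⁻¹ *
      ‖∫ s in (0 : ℝ)..t, (ev V).U (-s) (v0 j ((ev V).U s x))‖) atTop (𝓝 0) := by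
    rw [ae_all_iff]
    intro j
    exact velocity_zero hev hν (hv0 j)
  filter_upwards [hall] with V hV
  have hmom : ∀ u : L2 (Site d), M2 u ≠ ∞ →
      Tendsto (fun t : ℝ => M2 ((ev V).U t u) / ENNReal.ofReal (t ^ 2)) atTop (𝓝 0) := by
    intro u hm
    have hterm : ∀ j : Fin d, Tendsto (fun t : ℝ =>
        m2 j ((ev V).U t u) / ENNReal.ofReal (t ^ 2)) atTop (𝓝 0) := by
      intro j
      have hfin : m2 j u ≠ ∞ := by
        rw [second_eq] at hm
        exact ne_top_of_le_ne_top hm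
          (Finset.single_le_sum (f := fun j => m2 j u)
            (fun _ _ => bot_le) (Finset.mem_univ j))
      have h1 : Tendsto (fun t : ℝ => ‖∫ s in (0 : ℝ)..t,
          (ev V).U (-s) (v0 j ((ev V).U s u))‖ₑ ^ 2 / ENNReal.ofReal (t ^ 2)) atTop (𝓝 0) := by
        have h3 := (hV j u).pow 2
        rw [zero_pow (two_ne_zero)] at h3
        have h2 := (ENNReal.continuous_ofReal.tendsto 0).comp h3
        rw [ENNReal.ofReal_zero] at h2
        refine h2.congr' ?_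
        filter_upwards [eventually_gt_atTop (0 : ℝ)] with t ht
        simp only [Function.comp]
        rw [mul_pow, mul_comm, inv_pow, ← div_eq_mul_inv,
          ENNReal.ofReal_div_of_pos (by positivity), ENNReal.ofReal_pow (norm_nonneg _),
          ofReal_norm]
      refine tendsto_of_tendsto_of_tendsto_of_le_of_le tendsto_const_nhds
        (tendsto_aux hfin h1) (fun t => bot_le) fun t => ?_
      refine ENNReal.div_le_div_right ?_ _
      exact mom_le c _ _ (hev _) j (v0 j) (hv0 j) u t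
    have hsum := tendsto_finsetSum (Finset.univ : Finset (Fin d)) (fun j _ => hterm j)
    simp only [Finset.sum_const_zero] at hsum
    refine hsum.congr fun t => ?_
    rw [second_eq, ENNReal.div_eq_inv_mul, Finset.mul_sum]
    refine Finset.sum_congr rfl fun j _ => ?_
    rw [ENNReal.div_eq_inv_mul]
  intro u
  refine ⟨fun j v hv => ?_, hmom u, fun ε hε => ?_⟩
  · rw [huniq j v hv]
    rw [tendsto_zero_iff_norm_tendsto_zero]
    refine (hV j u).congr' ?_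
    filter_upwards [eventually_gt_atTop (0 : ℝ)] with t ht
    rw [norm_smul, norm_inv, Complex.norm_real, Real.norm_eq_abs, abs_of_pos ht]
  · rw [ENNReal.tendsto_nhds_zero]
    intro δ hδ
    obtain ⟨η, hη, hη2⟩ : ∃ η : ℝ, 0 < η ∧ 2 * ENNReal.ofReal (η ^ 2) ≤ δ / 2 := by
      have h1 : Tendsto (fun η : ℝ => 2 * ENNReal.ofReal (η ^ 2)) (𝓝[>] 0) (𝓝 0) := by
        have hc : Continuous fun η : ℝ => ENNReal.ofReal (η ^ 2) :=
          ENNReal.continuous_ofReal.comp (continuous_pow 2)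
        have h2 := (hc.tendsto 0).mono_left (nhdsWithin_le_nhds (s := Set.Ioi (0 : ℝ)))
        have h3 := ENNReal.Tendsto.const_mul (a := 2) h2 (Or.inr (by norm_num))
        simpa using h3
      have h2 : 0 < δ / 2 := ENNReal.half_pos hδ.ne'
      obtain ⟨η, h3, h4⟩ := ((ENNReal.tendsto_nhds_zero.1 h1 (δ / 2) h2).and
        self_mem_nhdsWithin).exists
      exact ⟨η, h4, h3⟩
    obtain ⟨w, hw, hwu⟩ := exists_near u η hη
    have h1 := hmom w hw
    have h2 : Tendsto (fun t : ℝ => 2 * ((ENNReal.ofReal (ε ^ 2))⁻¹ *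
        (M2 ((ev V).U t w) / ENNReal.ofReal (t ^ 2)))) atTop (𝓝 0) := by
      have h3 : (ENNReal.ofReal (ε ^ 2))⁻¹ ≠ ∞ :=
        ENNReal.inv_ne_top.2 (ENNReal.ofReal_pos.2 (by positivity)).ne'
      have h4 := ENNReal.Tendsto.const_mul (a := (ENNReal.ofReal (ε ^ 2))⁻¹) h1 (Or.inr h3)
      have h5 := ENNReal.Tendsto.const_mul (a := 2) h4 (Or.inr (by norm_num))
      simpa using h5
    have h3 : 0 < δ / 2 := ENNReal.half_pos hδ.ne'
    filter_upwards [ENNReal.tendsto_nhds_zero.1 h2 (δ / 2) h3, eventually_gt_atTop (0 : ℝ)]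
      with t ht ht0
    have h4 : out (ε * t) ((ev V).U t w) ≤ (ENNReal.ofReal (ε ^ 2))⁻¹ *
        (M2 ((ev V).U t w) / ENNReal.ofReal (t ^ 2)) := by
      refine (out_le (ε * t) (by positivity) _).trans (le_of_eq ?_)
      rw [mul_pow, ENNReal.ofReal_mul (by positivity), ENNReal.div_eq_inv_mul,
        ENNReal.div_eq_inv_mul, ENNReal.mul_inv (Or.inr ENNReal.ofReal_ne_top)
          (Or.inl ENNReal.ofReal_ne_top), mul_assoc]
    have h5 : ‖(ev V).U t u - (ev V).U t w‖ₑ ^ 2 ≤ ENNReal.ofReal (η ^ 2) := by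
      rw [← map_sub, ← ofReal_norm, (ev V).norm', ← ENNReal.ofReal_pow (norm_nonneg _)]
      exact ENNReal.ofReal_le_ofReal (pow_le_pow_left₀ (norm_nonneg _) hwu.le 2)
    calc out (ε * t) ((ev V).U t u)
        ≤ 2 * out (ε * t) ((ev V).U t w) + 2 * ‖(ev V).U t u - (ev V).U t w‖ₑ ^ 2 :=
          out_add _ _ _
      _ ≤ 2 * ((ENNReal.ofReal (ε ^ 2))⁻¹ * (M2 ((ev V).U t w) / ENNReal.ofReal (t ^ 2))) +
          2 * ENNReal.ofReal (η ^ 2) := by gcongr
      _ ≤ δ / 2 + δ / 2 := add_le_add ht hη2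
      _ = δ := ENNReal.add_halves δ

end Pool.Agent.U619.NB
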